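import Pool.Agent.Lib.helper14.FlowDec

set_option autoImplicit false

namespace Pool.Agent.Results.MP_a4a5b6_lc.OneParam

theorem result (G : Type) [Group G] [TopologicalSpace G] [IsTopologicalGroup G] [PolishSpace G]
    [MeasurableSpace G] [BorelSpace G] (φ : Multiplicative ℝ →* G) (hc : Continuous φ)
    (hne : φ ≠ 1) :
    ∃ A B : Set G, A ∪ B = Set.univ ∧ IsMeagre A ∧
      ∃ C : Set G, MeasurableSet C ∧ B ⊆ C ∧
        ∃ μ : MeasureTheory.Measure G, MeasureTheory.IsProbabilityMeasure μ ∧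
          ∀ g h : G, μ ((fun x => g * x * h) '' C) = 0 := by
  obtain ⟨M, N, h1, h2, h3, h4⟩ := H14Flow.group_dec G (fun t => φ (Multiplicative.ofAdd t))
    (hc.comp continuous_ofAdd) (fun s t => by rw [ofAdd_add, map_mul]) (by
      by_contra h
      push Not at h
      exact hne (MonoidHom.ext fun t => h t.toAdd))
  exact ⟨M, N, h1, h2, N, h3, subset_rfl, h4⟩

end Pool.Agent.Results.MP_a4a5b6_lc.OneParam
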